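import Pool.Agent.R900.BS.Main

/-!
# Vanishing of motivic cohomology in negative degrees: Jacobians suffice

`H m r X` is the motivic Borel–Moore homology `H_m(X, ℚ(r)) = CH_r(X, m - 2 r) ⊗ ℚ` of a variety `X` over a
perfect field `k`, for example `k = ℂ`. For smooth `X` of dimension `d` the group `H_(2 d - i)(X, ℚ(d - n))` is the
motivic cohomology `H^i(X, ℚ(n)) = CH^n(X, 2 n - i) ⊗ ℚ`. So for smooth projective `X` the question Q1 is
the vanishing of `H_m(X, ℚ(r))` for `m > 2 d`, `r < d` (`Vanishes G T (-1) X`); for `r ≥ d` it is known.

A Jacobian is the relative Jacobian `J = Pic^0(C / V)`, an abelian scheme over `V`, of a smooth projective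
curve `C → V` with geometrically connected fibres and with a section, over a smooth affine connected
variety `V` over `k`. (Equivalently one can consider Jacobians of curves over the function fields of `V`.)

**Theorem.** (1) The following are equivalent: `H_m(X, ℚ(r)) = 0` for all `m > 2 dim X`, all `r` and all
varieties `X` over `k`, smooth or not, projective or not; the same for all smooth projective varieties
(Q1); the same for all Jacobians `J`, that is, `H^i(J, ℚ(n)) = 0` for `i < 0` (`JacobiansSuffice`).

(2) Let `d ≥ 1`. If `H^i(J, ℚ(n)) = 0` for all `i < 0`, all `n` and all Jacobians `J` over bases of dimension less than
`d` then Q1 holds for all smooth projective varieties of dimension at most `d`, and the vanishing holds for all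
varieties of dimension at most `d` (`JacobiansBounded`). For example Q1 for all surfaces over `ℂ` follows from
the vanishing for the Jacobians of families of curves over curves, and for the Jacobians of single
curves.

(3) For every `d` the vanishing for all smooth projective varieties of dimension at most `d` is equivalent
to that for all varieties of dimension at most `d` (`ProjectiveSuffice`).

The idea. The function field of `X` is the function field of a curve over a smaller field. After a finite
extension this curve is an open part of the generic fibre of a curve `C → V` as above. For large `N` the
symmetric power `P = Sym^N(C / V)` is a projective bundle over `J`. If `s` is the section and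
`i : C → P`, `x ↦ x + (N - 1) s`, and if `ρ` is given by the correspondence of all pairs `(D, x)`, `x` in `D`, then
`i^* ∘ ρ = 1 + (N - 1) π^* s^*` with the projection `π : C → V`. So the groups of `C` are generated by the images
of those of `P` and `V`. The rest is an induction with the localization sequences.
-/

set_option autoImplicit false

namespace Pool.Agent.Results.MP_d72c81_ag.AbelianVarieties

open Pool.Agent.R900.BS

/-- The vanishing of motivic cohomology in negative degrees for all varieties, for the smooth projective
varieties (Q1) and for the Jacobians of curves over smooth affine bases are equivalent, with bounds for
the dimensions. -/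
theorem result {S : Type} {G : Varieties S} {T : Homology S} (hG : IsVarieties G)
    (hT : IsHomology G T (-1)) :
    JacobiansSuffice G T (-1) ∧ JacobiansBounded G T (-1) ∧ ProjectiveSuffice G T (-1) :=
  ⟨jacobiansSuffice hG hT (by norm_num), jacobiansBounded hG hT (by norm_num),
    projectiveSuffice hG hT (by norm_num)⟩

end Pool.Agent.Results.MP_d72c81_ag.AbelianVarieties
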