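import Pool.Agent.R936.BSC.Main
set_option autoImplicit false

/-!
# MP_d72c81_ag: Beilinson–Soulé vanishing for all complex varieties, from the point `Spec ℂ`

Let `H^k(-, n) = H^k(-, ℚ(n))` denote rational motivic cohomology, so that `H^k(X, n) = CH^n(X, 2 n - k) ⊗ ℚ` for
smooth `X`. The question Q1 asks whether `H^k(X, n) = 0` for all smooth projective complex varieties `X`, all weights `n`
and all `k < 0` (it is clear for `n ≤ 0`).

**Theorem.** (Weight by weight.) For all `n > 0` and `m < 0` these are equivalent.

1. `H^k(X, n) = 0` for all `k ≤ m` and all smooth projective complex varieties `X`.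
2. `H^k(Spec ℂ, n) = 0` for all `k ≤ m`.
3. `H^k(F, n) = 0` for all `k ≤ m` and all fields `F` of characteristic zero (of at most the cardinality of a type
   in `Type`, no other restriction).
4. `H^k(ℚ(t_0, t_1, ...), n + 1) = 0` for all `k ≤ m + 1`.

(All weights.) These are equivalent.

1. The question Q1 has the answer yes: `H^k(X, n) = 0` for all `X`, `n` and `k < 0`.
2. The answer is yes for `X = Spec ℂ`.
3. `H^(-1)(Spec ℂ, n) = 0` for all `n > 0`.
4. `H^0(ℚ(t_0, t_1, ...), n) = 0` for all `n > 1`.

So Q1 for a variety of any dimension is contained in Q1 for the point, in the same weight; and Q1 is a statement in the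
one degree `-1` for the field of complex numbers, or in the one degree `0` for one countable purely transcendental
extension of `ℚ`.

In the Lean statement:

* `T : FieldCohomology` with `IsMotivic T` (both from the files of helper388 for `MP_e2821c_ag.OneFieldOneDegree`) is
  the motivic cohomology of all fields, `T.H F i n = H^i(F, ℚ(n))`, with the known properties: functoriality, continuity
  (`Defined`, `Dies`), Milnor's exact sequence for `F(t)` (`RatInjective`, `RatExact`, `RatSurjective`), transfers, no
  torsion, `H^i(ℚ, n) = 0` for `i ≤ 0 < n` (Borel) and the same for `𝔽_p` (Quillen).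
* `V : VarietyCohomology` is the motivic cohomology of schemes over `ℂ` (Mathlib schemes), `𝒮` is a class of such
  schemes, here all smooth projective complex varieties (it may also be the class of all smooth ones), and
  `IsComputedByPoints T V 𝒮` says that `Spec ℂ` belongs to the class, that its cohomology is the one of the field `ℂ`,
  and that `H^k(X, n) = 0` if `H^(k - 2 p)(κ(x), n - p) = 0` for all points `x` of `X`, of codimension `p`. The latter is
  known: in the coniveau spectral sequence `E_1^{p, q}` is the sum of the groups `H^(q - p)(κ(x), n - p)` over the points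
  `x` of codimension `p`, and it converges to `H^(p + q)(X, n)`.
* `Rat ℚ = ℚ(t_0, t_1, ...)`.

Proof of 2 ⇒ 1 in weight `n`: by 2 for `k - p` the group `H^(k - p)(F, n)` is zero for all fields `F` of characteristic
zero, as a finitely generated one embeds in `ℂ`, and as an extension with trivial cohomology in degrees `≤ 0` forces
the same for subfields (specialisation and transfer). The residues of `F(t_1), F(t_1, t_2), ...` then give
`H^(k - 2 p)(F, n - p) = 0`, in particular for the residue fields of `X` at points of codimension `p`.
-/

open Pool.Agent.R388.BS Pool.Agent.R936.BSC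

namespace Pool.Agent.Results.MP_d72c81_ag.ComplexNumbersSuffice

/-- **Beilinson–Soulé vanishing for complex varieties is equivalent to the vanishing for the point, weight by weight;
in all weights the degree `-1` for `ℂ`, or the degree `0` for `ℚ(t_0, t_1, ...)`, suffices.** -/
theorem result (T : FieldCohomology) (hT : IsMotivic T) (V : VarietyCohomology) (𝒮 : Set CSch)
    (hV : IsComputedByPoints T V 𝒮) :
    (∀ n > 0, ∀ m < 0, List.TFAE [
      VarietiesVanish V 𝒮 m n,
      FieldVanishes T ℂ m n,
      ∀ (F : Type) [Field F] [CharZero F], FieldVanishes T F m n,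
      FieldVanishes T (Rat ℚ) (m + 1) (n + 1)]) ∧
    List.TFAE [
      ∀ n > 0, VarietiesVanish V 𝒮 (-1) n,
      ∀ n > 0, FieldVanishes T ℂ (-1) n,
      ∀ n > 0, Zero T ℂ (-1) n,
      ∀ n > 1, Zero T (Rat ℚ) 0 n] :=
  ⟨fun _ hn _ hm => tfae_weight hT hV hm hn, tfae_all hT hV⟩

end Pool.Agent.Results.MP_d72c81_ag.ComplexNumbersSuffice
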