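import Pool.Agent.R597.BS.Main

/-!
# Beilinson-Soulé vanishing and connectivity of smooth affine cubic hypersurfaces

`T` is a cohomology theory with the formal properties of rational motivic cohomology.
`Vanishes T X i j`: `H^i(X, ℚ(j)) = 0`; `IsConstant T X i j`: the pull-back from the point to `X` is
surjective in the bidegree `(i, j)`.
-/

set_option autoImplicit false

open CategoryTheory CategoryTheory.Limits AlgebraicGeometry MvPolynomial
open Pool.Agent.R904.CU Pool.Agent.R597.RD Pool.Agent.R597.RI Pool.Agent.R597.BS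

namespace Pool.Agent.Results.MP_d72c81_ag.ConnectivityOfCubics

theorem result (K : Type) [Field K] [Infinite K] (T : Coh K) (hT : IsCoh T) :
    -- one variety: `X` smooth, `V(g)` smooth of pure codimension `c` and an affine bundle over `X`
    (∀ (σ κ : Type) [Fintype σ] [Fintype κ] (g : κ → MvPolynomial σ K) (c : ℕ) (X : Sch K),
      (∃ d, IsSm d X) → IsSmCodim g c → IsBundleOver g X →
      (∀ i j : ℤ, Vanishes T X i j ↔
        IsConstant T (Over.mk (hyp (bigPoly g))) (i + 2 * c - 1) (j + c)) ∧
      ((∀ i j : ℤ, i < 0 → Vanishes T X i j) ↔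
        ∀ p q : ℤ, p < 2 * c - 1 → IsConstant T (Over.mk (hyp (bigPoly g))) p q)) ∧
    (Jouanolou K →
      -- every smooth `X` occurs, with quadratic polynomials `gₖ` and every large codimension `c`
      (∀ X : Sch K, (∃ d, IsSm d X) → ∃ c1 : ℕ, ∀ c : ℕ, c1 ≤ c →
        ∃ (σ κ : Type) (_ : Fintype σ) (_ : Fintype κ) (g : κ → MvPolynomial σ K),
          (∀ k, (g k).totalDegree ≤ 2) ∧ IsSmCodim g c ∧ IsBundleOver g X) ∧
      -- a class `C` of smooth schemes, for example the smooth projective ones; arbitrary large weights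
      (∀ C : Sch K → Prop, (∀ X, C X → ∃ d, IsSm d X) → ∀ D : Set ℤ, (∀ B : ℤ, ∃ q ∈ D, B ≤ q) →
        (NegativeVanish T C ↔ CubicsConnected T C D))) := by
  refine ⟨fun σ κ _ _ g c X hX hg hb => ⟨fun i j =>
    (constant_cubic_bundle hT g hg hX hb rfl rfl).symm, fun h p q hp => ?_, fun h i j hi => ?_⟩,
    fun hJ => ⟨fun X hX => exists_model hJ X hX, fun C hC D hD => negative_iff hT hJ hC hD⟩⟩
  · exact (constant_cubic_bundle hT g hg hX hb (i := p - 2 * c + 1) (j := q - c) (by omega)
      (by omega)).2 (h _ _ (by omega))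
  · exact (constant_cubic_bundle hT g hg hX hb rfl rfl).1 (h (i + 2 * c - 1) (j + c) (by omega))

end Pool.Agent.Results.MP_d72c81_ag.ConnectivityOfCubics
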