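import Pool.Agent.R905.RF.MainBS

/-!
# Vanishing of motivic cohomology in negative degrees and rational function fields
-/

set_option autoImplicit false

namespace Pool.Agent.Results.MP_d72c81_ag.RationalFunctionFields

open Pool.Agent.R905.RF

/-- Let `F` be a (perfect) field, for example `F = ℂ`, and `N ≥ 0`. The following statements are
equivalent:

1. `H^i(F, ℚ(j)) → H^i(F(x_1, ..., x_n), ℚ(j))` is surjective for all `n ≤ N + 1`, `i ≤ 0`, `j`;
2. `H^i(K, ℚ(j)) = 0` for all `i < 0`, `j` and all function fields `K` of irreducible varieties of
   dimension at most `N` over `F`;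
3. the motivic Borel–Moore homology `H_m(X, ℚ(r))` vanishes for all varieties `X` of dimension
   `d ≤ N`, all `m > 2d` and all `r`; for smooth `X` this is the group `H^{2d-m}(X, ℚ(d-r))`;
4. the same for the varieties in a class `S` with alterations, such as the smooth projective
   varieties. -/
theorem result (F : Type) [Field F] (T : Motivic F) (hT : T.IsMotivic) (hF : BirationalModels F)
    (N : ℕ) (S : Var F → Prop) (hS : T.Alterations S N) :
    [T.RationalFields N, T.AllFields N, T.Vanishing (fun _ => True) N, T.Vanishing S N].TFAE :=
  Motivic.tfae_main hT hF N S hS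

end Pool.Agent.Results.MP_d72c81_ag.RationalFunctionFields
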